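import Mathlib

/-!
# MP_e444d1_an: a complete Bernstein function meets `(p^x+N)/(p^x+D)` at most twice beyond `2/log p`

If the Lévy measure of a Bernstein function `F` has a nonincreasing density, then `x ↦ x F(x)` is
convex on `(0,∞)`.  On the other hand `x ↦ x (p^x+N)/(p^x+D)` is strictly concave beyond `2/log p`.
-/

set_option autoImplicit false

open MeasureTheory Filter Set Topology

namespace Pool.Agent.Results.MP_e444d1_an.AtMostTwo

/-- `m` is completely monotone on `(0,∞)`: smooth with `(-1)^k m^{(k)} ≥ 0` there, for all `k`. -/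
def IsCM (m : ℝ → ℝ) : Prop :=
  ContDiffOn ℝ (⊤ : ℕ∞) m (Ioi 0) ∧ ∀ k : ℕ, ∀ t : ℝ, 0 < t → 0 ≤ (-1) ^ k * iteratedDeriv k m t

/-- `F` is, on `(0,∞)`, the Bernstein function with constants `a, b ≥ 0` and Lévy density `m`:
`∫ min(1,t) m(t) dt < ∞` and `F(x) = a + b x + ∫ (1 - e^{-xt}) m(t) dt` for `x > 0`. -/
def HasLevyDensity (F m : ℝ → ℝ) : Prop :=
  ∃ a b : ℝ, 0 ≤ a ∧ 0 ≤ b ∧
    IntegrableOn (fun t => min 1 t * m t) (Ioi 0) ∧
    ∀ x : ℝ, 0 < x → F x = a + b * x + ∫ t in Ioi (0:ℝ), (1 - Real.exp (-(x * t))) * m t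

/-- `F` is a complete Bernstein function on `(0,∞)`: a Bernstein function whose Lévy measure has a
completely monotone density. -/
def IsCBF (F : ℝ → ℝ) : Prop := ∃ m : ℝ → ℝ, IsCM m ∧ HasLevyDensity F m

/-- `F` is a Bernstein function on `(0,∞)` whose Lévy measure has a nonincreasing density. -/
def IsMonoBF (F : ℝ → ℝ) : Prop :=
  ∃ m : ℝ → ℝ, (∀ t, 0 < t → 0 ≤ m t) ∧ AntitoneOn m (Ioi 0) ∧ HasLevyDensity F m

/-- The function `(p^x + N)/(p^x + D)` of a real variable. -/
noncomputable def phi (p N D x : ℝ) : ℝ := (p ^ x + N) / (p ^ x + D)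

lemma cbf_mono {F : ℝ → ℝ} (hF : IsCBF F) : IsMonoBF F := by
  obtain ⟨m, hm, h⟩ := hF
  refine ⟨m, ?_, ?_, h⟩
  · intro t ht
    have := hm.2 0 t ht
    simpa using this
  · apply antitoneOn_of_deriv_nonpos (convex_Ioi 0) hm.1.continuousOn
    · rw [interior_Ioi]
      exact hm.1.differentiableOn (by simp)
    · rw [interior_Ioi]
      intro t ht
      have := hm.2 1 t ht
      rw [iteratedDeriv_one] at this
      linarith

lemma integ {m : ℝ → ℝ} (h0 : ∀ t, 0 < t → 0 ≤ m t) (ha : AntitoneOn m (Ioi 0))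
    (hi : IntegrableOn (fun t => min 1 t * m t) (Ioi 0)) {x : ℝ} (hx : 0 < x) :
    IntegrableOn (fun t => (1 - Real.exp (-(x * t))) * m t) (Ioi 0) := by
  have h1 := hi.const_mul (max 1 x)
  have hmm : AEStronglyMeasurable m (volume.restrict (Ioi (0:ℝ))) :=
    (aemeasurable_restrict_of_antitoneOn measurableSet_Ioi ha).aestronglyMeasurable
  refine Integrable.mono' h1 ?_ ?_
  · exact (by fun_prop : Continuous fun t : ℝ => 1 - Real.exp (-(x * t))).aestronglyMeasurable.mul hmm
  · filter_upwards [ae_restrict_mem measurableSet_Ioi] with t ht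
    have ht' : (0:ℝ) < t := ht
    have h2 : 0 ≤ 1 - Real.exp (-(x * t)) := by
      have : Real.exp (-(x * t)) ≤ 1 := by
        rw [Real.exp_le_one_iff]; have := mul_pos hx ht'; linarith
      linarith
    have h3 : 1 - Real.exp (-(x * t)) ≤ max 1 x * min 1 t := by
      have e1 : 1 - Real.exp (-(x * t)) ≤ 1 := by
        have := Real.exp_pos (-(x * t)); linarith
      have e2 : 1 - Real.exp (-(x * t)) ≤ x * t := by
        have := Real.add_one_le_exp (-(x * t)); linarith
      rcases le_total 1 t with h | h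
      · rw [min_eq_left h]; have := le_max_left 1 x; linarith
      · rw [min_eq_right h]
        have : x * t ≤ max 1 x * t := by gcongr; exact le_max_right _ _
        linarith
    rw [Real.norm_eq_abs, abs_of_nonneg (mul_nonneg h2 (h0 t ht')), ← mul_assoc]
    exact mul_le_mul_of_nonneg_right h3 (h0 t ht')

/-- The sign change of `ψ(t) = y - αx e^{(y-x)t} - βz e^{-(z-y)t}`. -/
lemma signChange {x z α β : ℝ} (hx : 0 < x) (hxz : x < z) (hα : 0 < α) (hβ : 0 < β)
    (hab : α + β = 1) :
    ∃ t0 : ℝ, 0 < t0 ∧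
      (∀ t, 0 < t → t ≤ t0 → 0 ≤ (α * x + β * z) * Real.exp (-((α * x + β * z) * t)) -
        α * (x * Real.exp (-(x * t))) - β * (z * Real.exp (-(z * t)))) ∧
      (∀ t, t0 ≤ t → (α * x + β * z) * Real.exp (-((α * x + β * z) * t)) -
        α * (x * Real.exp (-(x * t))) - β * (z * Real.exp (-(z * t))) ≤ 0) := by
  have hz : 0 < z := hx.trans hxz
  set y := α * x + β * z with hy
  have hy0 : 0 < y := by positivity
  have hα1 : α = 1 - β := by linarith
  have hyx : y - x = β * (z - x) := by rw [hy, hα1]; ring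
  have hzy : z - y = α * (z - x) := by rw [hy]; have : β = 1 - α := by linarith
                                       rw [this]; ring
  set ψ : ℝ → ℝ := fun t => y - α * x * Real.exp ((y - x) * t) - β * z * Real.exp ((y - z) * t)
    with hψ
  have hψ0 : ψ 0 = 0 := by simp [hψ]; rw [hy]; ring
  have hψc : Continuous ψ := by rw [hψ]; fun_prop
  have hce : ∀ c : ℝ, ConvexOn ℝ univ fun t : ℝ => Real.exp (c * t) := by
    intro c
    have := convexOn_exp.comp_linearMap (LinearMap.mulLeft ℝ c)
    simpa [Function.comp_def] using this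
  have hconc : ConcaveOn ℝ univ ψ := by
    refine ⟨convex_univ, ?_⟩
    intro s _ t _ a b ha hb hab'
    have e1 := (hce (y - x)).2 (mem_univ s) (mem_univ t) ha hb hab'
    have e2 := (hce (y - z)).2 (mem_univ s) (mem_univ t) ha hb hab'
    simp only [smul_eq_mul] at e1 e2 ⊢
    have e1' := mul_le_mul_of_nonneg_left e1 (by positivity : 0 ≤ α * x)
    have e2' := mul_le_mul_of_nonneg_left e2 (by positivity : 0 ≤ β * z)
    have e3 : a * y + b * y = y := by rw [← add_mul, hab', one_mul]
    simp only [hψ]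
    nlinarith
  have hpos : ∃ t1, 0 < t1 ∧ 0 < ψ t1 := by
    refine ⟨1 / (2 * y), by positivity, ?_⟩
    set t := 1 / (2 * y) with ht
    have ht0 : 0 < t := by positivity
    have hyt : y * t = 1 / 2 := by rw [ht]; field_simp
    have h1 : 0 < 1 - (y - x) * t := by nlinarith
    have h2 : 0 < 1 + (z - y) * t := by
      have : 0 < z - y := by rw [hzy]; exact mul_pos hα (by linarith)
      positivity
    have e1 : Real.exp ((y - x) * t) ≤ 1 / (1 - (y - x) * t) := by
      rw [le_div_iff₀ h1]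
      have := Real.add_one_le_exp (-((y - x) * t))
      have h3 : Real.exp ((y - x) * t) * Real.exp (-((y - x) * t)) = 1 := by
        rw [← Real.exp_add]; simp
      have h4 := Real.exp_pos ((y - x) * t)
      nlinarith
    have e2 : Real.exp ((y - z) * t) ≤ 1 / (1 + (z - y) * t) := by
      rw [le_div_iff₀ h2]
      have := Real.add_one_le_exp ((z - y) * t)
      have h3 : Real.exp ((y - z) * t) * Real.exp ((z - y) * t) = 1 := by
        rw [← Real.exp_add, ← add_mul]; simp
      have h4 := Real.exp_pos ((y - z) * t)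
      nlinarith
    have e3 : α * x / (1 - (y - x) * t) + β * z / (1 + (z - y) * t) < y := by
      rw [div_add_div _ _ h1.ne' h2.ne', div_lt_iff₀ (mul_pos h1 h2)]
      have key2 : y * ((1 - (y - x) * t) * (1 + (z - y) * t)) - (α * x * (1 + (z - y) * t) +
            (1 - (y - x) * t) * (β * z)) = α * β * (z - x) ^ 2 * t * (1 - y * t) := by
        rw [hyx, hzy, hy, hα1]; ring
      have : 0 < α * β * (z - x) ^ 2 * t * (1 - y * t) := by
        rw [hyt]
        have : 0 < z - x := by linarith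
        positivity
      linarith
    have e4 : α * x * Real.exp ((y - x) * t) ≤ α * x / (1 - (y - x) * t) := by
      rw [div_eq_mul_one_div]; exact mul_le_mul_of_nonneg_left e1 (by positivity)
    have e5 : β * z * Real.exp ((y - z) * t) ≤ β * z / (1 + (z - y) * t) := by
      rw [div_eq_mul_one_div]; exact mul_le_mul_of_nonneg_left e2 (by positivity)
    show 0 < y - α * x * Real.exp ((y - x) * t) - β * z * Real.exp ((y - z) * t)
    linarith
  obtain ⟨t1, ht1, hψ1⟩ := hpos
  have hyx' : 0 < y - x := by rw [hyx]; exact mul_pos hβ (by linarith)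
  have hneg : ∃ t2, t1 < t2 ∧ ψ t2 < 0 := by
    refine ⟨t1 + y / (α * x * (y - x)), by have : 0 < y / (α * x * (y - x)) := by positivity
                                           linarith, ?_⟩
    set t := t1 + y / (α * x * (y - x)) with ht
    have e1 := Real.add_one_le_exp ((y - x) * t)
    have e2 : α * x * ((y - x) * t) = α * x * (y - x) * t1 + y := by
      rw [ht]; field_simp
    have e3 := mul_le_mul_of_nonneg_left e1 (by positivity : 0 ≤ α * x)
    have e4 : 0 < β * z * Real.exp ((y - z) * t) := by positivity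
    have e5 : 0 < α * x * (y - x) * t1 := by positivity
    have e6 : 0 < α * x := by positivity
    show y - α * x * Real.exp ((y - x) * t) - β * z * Real.exp ((y - z) * t) < 0
    nlinarith
  obtain ⟨t2, ht12, hψ2⟩ := hneg
  obtain ⟨t0, ht0, hψt0⟩ : ∃ t0 ∈ Icc t1 t2, ψ t0 = 0 := by
    have := intermediate_value_Icc' ht12.le hψc.continuousOn
    exact this ⟨hψ2.le, hψ1.le⟩
  have ht0p : 0 < t0 := lt_of_lt_of_le ht1 ht0.1
  have hrel : ∀ t, y * Real.exp (-(y * t)) - α * (x * Real.exp (-(x * t))) -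
      β * (z * Real.exp (-(z * t))) = Real.exp (-(y * t)) * ψ t := by
    intro t
    have a1 : Real.exp (-(x * t)) = Real.exp (-(y * t)) * Real.exp ((y - x) * t) := by
      rw [← Real.exp_add]; congr 1; ring
    have a2 : Real.exp (-(z * t)) = Real.exp (-(y * t)) * Real.exp ((y - z) * t) := by
      rw [← Real.exp_add]; congr 1; ring
    rw [a1, a2]; simp only [hψ]; ring
  refine ⟨t0, ht0p, ?_, ?_⟩
  · intro t ht htt
    rw [hrel]
    refine mul_nonneg (Real.exp_pos _).le ?_
    have c1 : 0 ≤ 1 - t / t0 := by rw [sub_nonneg, div_le_one ht0p]; exact htt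
    have c2 : 0 ≤ t / t0 := by positivity
    have h := hconc.2 (mem_univ 0) (mem_univ t0) c1 c2 (by ring)
    simp only [smul_eq_mul, hψ0, hψt0, mul_zero, add_zero, zero_add] at h
    rwa [div_mul_cancel₀ _ ht0p.ne'] at h
  · intro t htt
    have ht : 0 < t := lt_of_lt_of_le ht0p htt
    rw [hrel]
    refine mul_nonpos_of_nonneg_of_nonpos (Real.exp_pos _).le ?_
    have c1 : 0 ≤ 1 - t0 / t := by rw [sub_nonneg, div_le_one ht]; exact htt
    have c2 : 0 ≤ t0 / t := by positivity
    have h := hconc.2 (mem_univ 0) (mem_univ t) c1 c2 (by ring)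
    simp only [smul_eq_mul, hψ0, mul_zero, zero_add] at h
    rw [div_mul_cancel₀ _ ht.ne', hψt0] at h
    by_contra hc
    push Not at hc
    have : 0 < t0 / t * ψ t := by positivity
    linarith

lemma int_exp {x : ℝ} (hx : 0 < x) :
    IntegrableOn (fun t => x * Real.exp (-(x * t))) (Ioi 0) ∧
      ∫ t in Ioi (0:ℝ), x * Real.exp (-(x * t)) = 1 := by
  have h1 : IntegrableOn (fun t => Real.exp (-x * t)) (Ioi 0) := integrableOn_exp_mul_Ioi (by linarith) 0
  have e : (fun t => x * Real.exp (-(x * t))) = fun t => x * Real.exp (-x * t) := by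
    funext t; rw [neg_mul]
  refine ⟨by rw [e]; exact h1.const_mul x, ?_⟩
  rw [e, integral_const_mul, integral_exp_mul_Ioi (by linarith) 0]
  simp
  field_simp

/-- If the Lévy measure has a nonincreasing density then `x F(x)` is convex on `(0,∞)`. -/
lemma convex_mul {F : ℝ → ℝ} (hF : IsMonoBF F) : ConvexOn ℝ (Ioi 0) fun x => x * F x := by
  obtain ⟨m, h0, ha, a, b, ha0, hb0, hi, hFx⟩ := hF
  refine LinearOrder.convexOn_of_lt (convex_Ioi 0) ?_
  intro x hx z hz hxz α β hα hβ hab
  have hx0 : (0:ℝ) < x := hx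
  have hz0 : (0:ℝ) < z := hz
  simp only [smul_eq_mul]
  set y := α * x + β * z with hy
  have hy0 : 0 < y := by positivity
  obtain ⟨t0, ht0, hK1, hK2⟩ := signChange hx0 hxz hα hβ hab
  rw [← hy] at hK1 hK2
  have ix := integ h0 ha hi hx0
  have iy := integ h0 ha hi hy0
  have iz := integ h0 ha hi hz0
  set Ix := ∫ t in Ioi (0:ℝ), (1 - Real.exp (-(x * t))) * m t with hIx
  set Iy := ∫ t in Ioi (0:ℝ), (1 - Real.exp (-(y * t))) * m t with hIy
  set Iz := ∫ t in Ioi (0:ℝ), (1 - Real.exp (-(z * t))) * m t with hIz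
  have hK : ∫ t in Ioi (0:ℝ), (y * Real.exp (-(y * t)) - α * (x * Real.exp (-(x * t))) -
        β * (z * Real.exp (-(z * t)))) = 0 := by
    have i1 : IntegrableOn (fun t => y * Real.exp (-(y * t)) - α * (x * Real.exp (-(x * t))))
      (Ioi 0) := (int_exp hy0).1.sub ((int_exp hx0).1.const_mul α)
    rw [integral_sub i1
      ((int_exp hz0).1.const_mul β), integral_sub (int_exp hy0).1 ((int_exp hx0).1.const_mul α),
      (int_exp hy0).2, integral_const_mul α, integral_const_mul β, (int_exp hx0).2, (int_exp hz0).2]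
    linarith
  have hKi : IntegrableOn (fun t => (y * Real.exp (-(y * t)) - α * (x * Real.exp (-(x * t))) -
        β * (z * Real.exp (-(z * t))))) (Ioi 0) :=
    ((int_exp hy0).1.sub ((int_exp hx0).1.const_mul α)).sub ((int_exp hz0).1.const_mul β)
  have hrw : ∀ t, (y * Real.exp (-(y * t)) - α * (x * Real.exp (-(x * t))) -
        β * (z * Real.exp (-(z * t)))) * m t =
      α * x * ((1 - Real.exp (-(x * t))) * m t) + β * z * ((1 - Real.exp (-(z * t))) * m t) -
        y * ((1 - Real.exp (-(y * t))) * m t) := by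
    intro t
    have : α * x + β * z - y = 0 := by rw [hy]; ring
    linear_combination (-(m t)) * this
  have hKm : IntegrableOn (fun t => (y * Real.exp (-(y * t)) - α * (x * Real.exp (-(x * t))) -
        β * (z * Real.exp (-(z * t)))) * m t) (Ioi 0) := by
    simp_rw [hrw]
    exact ((ix.const_mul _).add (iz.const_mul _)).sub (iy.const_mul _)
  have hKmv : ∫ t in Ioi (0:ℝ), (y * Real.exp (-(y * t)) - α * (x * Real.exp (-(x * t))) -
        β * (z * Real.exp (-(z * t)))) * m t = α * x * Ix + β * z * Iz - y * Iy := by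
    simp_rw [hrw]
    have i1 : IntegrableOn (fun t => α * x * ((1 - Real.exp (-(x * t))) * m t) +
      β * z * ((1 - Real.exp (-(z * t))) * m t)) (Ioi 0) := (ix.const_mul _).add (iz.const_mul _)
    rw [integral_sub i1 (iy.const_mul _),
      integral_add (ix.const_mul _) (iz.const_mul _), integral_const_mul, integral_const_mul,
      integral_const_mul]
  have hge : 0 ≤ α * x * Ix + β * z * Iz - y * Iy := by
    rw [← hKmv]
    have h1 : ∫ t in Ioi (0:ℝ), (y * Real.exp (-(y * t)) - α * (x * Real.exp (-(x * t))) -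
        β * (z * Real.exp (-(z * t)))) * m t0 = 0 := by
      rw [integral_mul_const, hK, zero_mul]
    refine h1.symm.le.trans ?_
    refine setIntegral_mono_on (hKi.mul_const _) hKm measurableSet_Ioi ?_
    intro t ht
    have ht' : (0:ℝ) < t := ht
    rcases le_total t t0 with h | h
    · exact mul_le_mul_of_nonneg_left (ha ht ht0 h) (hK1 t ht' h)
    · exact mul_le_mul_of_nonpos_left (ha ht0 ht h) (hK2 t h)
  rw [hFx x hx0, hFx z hz0, hFx y hy0]
  have hb : 0 ≤ b * (α * β * (z - x) ^ 2) := by positivity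
  have hβ1 : β = 1 - α := by linarith
  have : α * (x * (a + b * x + Ix)) + β * (z * (a + b * z + Iz)) - y * (a + b * y + Iy) =
      (α * x * Ix + β * z * Iz - y * Iy) + b * (α * β * (z - x) ^ 2) := by
    rw [hy, hβ1]; ring
  linarith

/-- `x/(p^x + D)` is strictly convex beyond `2/log p` when `-1 < D ≤ 0`. -/
lemma strictConvex_g {p D : ℝ} (hp : 1 < p) (hD1 : -1 < D) (hD : D ≤ 0) :
    StrictConvexOn ℝ (Ici (2 / Real.log p)) fun x => x / (p ^ x + D) := by
  have hc : 0 < Real.log p := Real.log_pos hp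
  have hp0 : 0 < p := by linarith
  have hE : ∀ x : ℝ, 0 ≤ x → 1 ≤ p ^ x := fun x hx => Real.one_le_rpow hp.le hx
  have hw : ∀ x : ℝ, 0 ≤ x → 0 < p ^ x + D := fun x hx => by have := hE x hx; linarith
  have h2 : 0 < 2 / Real.log p := by positivity
  have hdE : ∀ x : ℝ, HasDerivAt (fun x : ℝ => p ^ x) (p ^ x * Real.log p) x :=
    fun x => (Real.hasStrictDerivAt_const_rpow hp0 x).hasDerivAt
  have hd1 : ∀ x : ℝ, 0 < x → HasDerivAt (fun x : ℝ => x / (p ^ x + D))
      ((p ^ x + D - x * (p ^ x * Real.log p)) / (p ^ x + D) ^ 2) x := by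
    intro x hx
    have := (hasDerivAt_id x).div ((hdE x).add_const D) (hw x hx.le).ne'
    refine HasDerivAt.congr_deriv (f := fun x : ℝ => x / (p ^ x + D)) this ?_
    simp only [id, one_mul]
  apply strictConvexOn_of_deriv2_pos (convex_Ici _)
  · intro x hx
    have hx0 : 0 < x := lt_of_lt_of_le h2 hx
    exact (hd1 x hx0).continuousAt.continuousWithinAt
  · intro x hx
    rw [interior_Ici] at hx
    have hx0 : 0 < x := h2.trans hx
    have hev : deriv (fun x : ℝ => x / (p ^ x + D)) =ᶠ[𝓝 x]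
        fun x => (p ^ x + D - x * (p ^ x * Real.log p)) / (p ^ x + D) ^ 2 := by
      filter_upwards [lt_mem_nhds hx0] with u hu
      exact (hd1 u hu).deriv
    have hd2 : HasDerivAt (fun x : ℝ => (p ^ x + D - x * (p ^ x * Real.log p)) / (p ^ x + D) ^ 2)
        (((p ^ x * Real.log p - (1 * (p ^ x * Real.log p) + x * (p ^ x * Real.log p * Real.log p))) *
          (p ^ x + D) ^ 2 - (p ^ x + D - x * (p ^ x * Real.log p)) *
            (2 * (p ^ x + D) * (p ^ x * Real.log p))) / ((p ^ x + D) ^ 2) ^ 2) x := by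
      have a1 : HasDerivAt (fun x : ℝ => p ^ x + D - x * (p ^ x * Real.log p))
          (p ^ x * Real.log p - (1 * (p ^ x * Real.log p) + x * (p ^ x * Real.log p * Real.log p))) x :=
        ((hdE x).add_const D).sub ((hasDerivAt_id x).mul ((hdE x).mul_const _))
      have a2 : HasDerivAt (fun x : ℝ => (p ^ x + D) ^ 2)
          (2 * (p ^ x + D) * (p ^ x * Real.log p)) x := by
        have := ((hdE x).add_const D).pow 2
        refine HasDerivAt.congr_deriv (f := fun x : ℝ => (p ^ x + D) ^ 2) this ?_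
        norm_num
      exact a1.div a2 (pow_pos (hw x hx0.le) 2).ne'
    show 0 < deriv^[2] _ x
    simp only [Function.iterate_succ, Function.iterate_zero, Function.comp_apply, id]
    rw [hev.deriv_eq, hd2.deriv]
    apply div_pos _ (by have := hw x hx0.le; positivity)
    set E := p ^ x
    set c := Real.log p
    have hE1 : 1 ≤ E := hE x hx0.le
    have hw0 : 0 < E + D := hw x hx0.le
    have hxc : 2 < x * c := by rwa [mem_Ioi, div_lt_iff₀ hc] at hx
    have : (E * c - (1 * (E * c) + x * (E * c * c))) * (E + D) ^ 2 -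
        (E + D - x * (E * c)) * (2 * (E + D) * (E * c)) =
        c * E * (E + D) * ((x * c - 2) * E + (2 + x * c) * (-D)) := by ring
    rw [this]
    have h3 : 0 < (x * c - 2) * E := mul_pos (by linarith) (by linarith)
    have h4 : 0 ≤ (2 + x * c) * (-D) := mul_nonneg (by linarith) (by linarith)
    have hE0 : 0 < E := by linarith
    exact mul_pos (mul_pos (mul_pos hc hE0) hw0) (by linarith)

lemma phi_eq {p N D x : ℝ} (hp : 1 < p) (hD1 : -1 < D) (hx : 0 ≤ x) :
    x * phi p N D x = x - (D - N) * (x / (p ^ x + D)) := by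
  have : 0 < p ^ x + D := by have := Real.one_le_rpow hp.le hx; linarith
  rw [phi]; field_simp; ring

lemma part1 {p N D : ℝ} (hp : 1 < p) (hN : -1 < N) (hND : N < D) (hD : D ≤ 0) {F : ℝ → ℝ}
    (hF : IsMonoBF F) {x y z : ℝ} (hx : 2 / Real.log p ≤ x) (hxy : x < y) (hyz : y < z)
    (h1 : F x = phi p N D x) (h2 : F y = phi p N D y) (h3 : F z = phi p N D z) : False := by
  have hc : 0 < Real.log p := Real.log_pos hp
  have h0 : 0 < 2 / Real.log p := by positivity
  have hx0 : 0 < x := lt_of_lt_of_le h0 hx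
  have hconv := convex_mul hF
  have hstr := strictConvex_g hp (by linarith : -1 < D) hD
  set α := (z - y) / (z - x) with hα
  set β := (y - x) / (z - x) with hβ
  have hzx : 0 < z - x := by linarith
  have hα0 : 0 < α := div_pos (by linarith) hzx
  have hβ0 : 0 < β := div_pos (by linarith) hzx
  have hab : α + β = 1 := by rw [hα, hβ]; field_simp; ring
  have hy : α * x + β * z = y := by rw [hα, hβ]; field_simp; ring
  have c1 := hconv.2 (show x ∈ Ioi (0:ℝ) from hx0) (show z ∈ Ioi (0:ℝ) by simp; linarith)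
    hα0.le hβ0.le hab
  have c2 := hstr.2 (show x ∈ Ici (2 / Real.log p) from hx)
    (show z ∈ Ici (2 / Real.log p) by simp only [mem_Ici]; linarith) (by linarith : x ≠ z)
    hα0 hβ0 hab
  simp only [smul_eq_mul] at c1 c2
  rw [hy] at c1 c2
  rw [h1, h2, h3, phi_eq hp (by linarith) hx0.le, phi_eq hp (by linarith) (by linarith : 0 ≤ y),
    phi_eq hp (by linarith) (by linarith : 0 ≤ z)] at c1
  have c3 := mul_lt_mul_of_pos_left c2 (by linarith : 0 < D - N)
  nlinarith

lemma part2 {p N D : ℝ} (hp : 1 < p) (hN : -1 < N) (hND : N < D) (hD : D < 1) {F : ℝ → ℝ}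
    (hF : IsMonoBF F) {n : ℕ} (hn : 1 ≤ n)
    (hcr : D * (n * (p - 1) + 2 * p) < p ^ (n + 1) * (n * (p - 1) - 2))
    (h1 : F n = (p ^ n + N) / (p ^ n + D))
    (h2 : F (n + 1) = (p ^ (n + 1) + N) / (p ^ (n + 1) + D))
    (h3 : F (n + 2) = (p ^ (n + 2) + N) / (p ^ (n + 2) + D)) : False := by
  have hconv := convex_mul hF
  have hn0 : (0:ℝ) < n := by exact_mod_cast hn
  have c1 := hconv.2 (show (n:ℝ) ∈ Ioi (0:ℝ) from hn0)
    (show (n:ℝ) + 2 ∈ Ioi (0:ℝ) by simp only [mem_Ioi]; linarith)
    (by norm_num : (0:ℝ) ≤ 1 / 2) (by norm_num : (0:ℝ) ≤ 1 / 2) (by norm_num)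
  simp only [smul_eq_mul] at c1
  rw [show (1:ℝ) / 2 * n + 1 / 2 * (n + 2) = n + 1 by ring, h1, h2, h3] at c1
  have hP : 1 ≤ p ^ n := one_le_pow₀ hp.le
  have e1 : p ^ (n + 1) = p * p ^ n := by ring
  have e2 : p ^ (n + 2) = p ^ 2 * p ^ n := by ring
  rw [e1, e2] at c1
  rw [e1] at hcr
  set P := p ^ n
  have hp0 : 0 < p := by linarith
  have hpP : 1 ≤ p * P := by nlinarith
  have hppP : 1 ≤ p ^ 2 * P := by nlinarith
  have w1 : 0 < P + D := by linarith
  have w2 : 0 < p * P + D := by linarith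
  have w3 : 0 < p ^ 2 * P + D := by linarith
  have k1 : (P + N) / (P + D) = 1 - (D - N) / (P + D) := by field_simp; ring
  have k2 : (p * P + N) / (p * P + D) = 1 - (D - N) / (p * P + D) := by field_simp; ring
  have k3 : (p ^ 2 * P + N) / (p ^ 2 * P + D) = 1 - (D - N) / (p ^ 2 * P + D) := by
    field_simp; ring
  rw [k1, k2, k3] at c1
  have k4 : (n:ℝ) / (P + D) - 2 * (n + 1) / (p * P + D) + (n + 2) / (p ^ 2 * P + D) =
      P * (p - 1) * (p * P * (n * (p - 1) - 2) - D * (n * (p - 1) + 2 * p)) /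
        ((P + D) * (p * P + D) * (p ^ 2 * P + D)) := by
    rw [div_sub_div _ _ w1.ne' w2.ne', div_add_div _ _ (mul_pos w1 w2).ne' w3.ne']
    congr 1
    ring
  have k5 : 0 < (n:ℝ) / (P + D) - 2 * (n + 1) / (p * P + D) + (n + 2) / (p ^ 2 * P + D) := by
    rw [k4]
    have : 0 < p * P * (n * (p - 1) - 2) - D * (n * (p - 1) + 2 * p) := by linarith
    have hp1 : 0 < p - 1 := by linarith
    positivity
  have k6 := mul_pos (by linarith : 0 < D - N) k5
  have k7 : (D - N) * ((n:ℝ) / (P + D) - 2 * (n + 1) / (p * P + D) + (n + 2) / (p ^ 2 * P + D)) =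
      n * ((D - N) / (P + D)) - 2 * ((n + 1) * ((D - N) / (p * P + D))) +
        (n + 2) * ((D - N) / (p ^ 2 * P + D)) := by
    ring
  rw [k7] at k6
  linarith

/-- `A + c x/(x+s)` is a complete Bernstein function. -/
lemma cbf_simple {A c s : ℝ} (hA : 0 ≤ A) (hc : 0 ≤ c) (hs : 0 < s) :
    IsCBF fun x => A + c * (x / (x + s)) := by
  have hit : ∀ k : ℕ, iteratedDeriv k (fun t : ℝ => c * s * Real.exp (-s * t)) =
      fun t => (-s) ^ k * (c * s * Real.exp (-s * t)) := by
    intro k
    induction k with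
    | zero => simp
    | succ k ih =>
      rw [iteratedDeriv_succ, ih]
      funext t
      have h1 : HasDerivAt (fun t : ℝ => Real.exp (-s * t)) (Real.exp (-s * t) * (-s)) t := by
        have := ((hasDerivAt_id t).const_mul (-s)).exp
        simpa using this
      have h2 := (h1.const_mul (c * s)).const_mul ((-s) ^ k)
      rw [h2.deriv]; ring
  refine ⟨fun t => c * s * Real.exp (-s * t), ⟨?_, ?_⟩, A, 0, hA, le_rfl, ?_, ?_⟩
  · have : ContDiff ℝ (⊤ : ℕ∞) fun t : ℝ => c * s * Real.exp (-s * t) := by fun_prop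
    exact this.contDiffOn
  · intro k t _
    rw [hit k]
    have : (-1 : ℝ) ^ k * ((-s) ^ k * (c * s * Real.exp (-s * t))) =
        s ^ k * (c * s * Real.exp (-s * t)) := by
      rw [← mul_assoc, ← mul_pow]; simp
    rw [this]; positivity
  · have h1 : IntegrableOn (fun t => Real.exp (-s * t)) (Ioi 0) :=
      integrableOn_exp_mul_Ioi (by linarith) 0
    refine Integrable.mono' (h1.const_mul (c * s)) ?_ ?_
    · exact (by fun_prop : Continuous fun t : ℝ =>
        min 1 t * (c * s * Real.exp (-s * t))).aestronglyMeasurable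
    · filter_upwards [ae_restrict_mem measurableSet_Ioi] with t ht
      have ht' : (0:ℝ) < t := ht
      have h0 : 0 ≤ c * s * Real.exp (-s * t) := by positivity
      have h2 : 0 ≤ min 1 t := le_min (by norm_num) ht'.le
      rw [Real.norm_eq_abs, abs_of_nonneg (mul_nonneg h2 h0)]
      have := mul_le_mul_of_nonneg_right (min_le_left 1 t) h0
      linarith
  · intro x hx
    have h1 : IntegrableOn (fun t => Real.exp (-s * t)) (Ioi 0) :=
      integrableOn_exp_mul_Ioi (by linarith) 0
    have h2 : IntegrableOn (fun t => Real.exp (-(x + s) * t)) (Ioi 0) :=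
      integrableOn_exp_mul_Ioi (by linarith) 0
    have e : ∀ t : ℝ, (1 - Real.exp (-(x * t))) * (c * s * Real.exp (-s * t)) =
        c * s * Real.exp (-s * t) - c * s * Real.exp (-(x + s) * t) := by
      intro t
      have : Real.exp (-(x + s) * t) = Real.exp (-(x * t)) * Real.exp (-s * t) := by
        rw [← Real.exp_add]; congr 1; ring
      rw [this]; ring
    have e' : ∀ t : ℝ, (1 - Real.exp (-(x * t))) * (c * s * Real.exp (-s * t)) =
        c * (s * Real.exp (-(s * t))) - c * s / (x + s) * ((x + s) * Real.exp (-((x + s) * t))) := by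
      intro t
      rw [e t, neg_mul, neg_mul]
      have : x + s ≠ 0 := by positivity
      field_simp
    simp_rw [e']
    have hxs : 0 < x + s := by positivity
    rw [integral_sub ((int_exp hs).1.const_mul _) ((int_exp hxs).1.const_mul _),
      integral_const_mul c, integral_const_mul (c * s / (x + s)), (int_exp hs).2, (int_exp hxs).2]
    field_simp
    ring

/-- For `D = 0` the bound `2/(p-1)` is sharp. -/
lemma part3 {p : ℝ} (hp : 1 < p) {n : ℕ} (hn : n * (p - 1) < 2) :
    ∃ ε : ℝ, 0 < ε ∧ ∀ N : ℝ, -ε < N → N < 0 → ∃ F : ℝ → ℝ, IsCBF F ∧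
      F n = (p ^ n + N) / (p ^ n + 0) ∧
      F (n + 1) = (p ^ (n + 1) + N) / (p ^ (n + 1) + 0) ∧
      F (n + 2) = (p ^ (n + 2) + N) / (p ^ (n + 2) + 0) := by
  have hp0 : 0 < p := by linarith
  have hp1 : 0 < p - 1 := by linarith
  set s : ℝ := (n + 2 - n * p) / (p - 1) with hs
  have hs0 : 0 < s := div_pos (by nlinarith) hp1
  have hn0 : (0:ℝ) ≤ n := Nat.cast_nonneg n
  have hP : 1 ≤ p ^ n := one_le_pow₀ hp.le
  set P := p ^ n with hPdef
  have hP0 : 0 < P := by linarith
  have hps : (n:ℝ) + 2 + s = p * (n + s) := by rw [hs]; field_simp; ring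
  -- c = |N| (p-1)(n+s)(n+1+s)/(s p P)
  set K : ℝ := (p - 1) * (n + s) * (n + 1 + s) / (s * (p * P)) with hK
  have hK0 : 0 < K := by positivity
  refine ⟨min 1 (1 / (1 / P + K * (n / (n + s)))), by positivity, ?_⟩
  intro N hN hN0
  have hNe : -N * (1 / P + K * (n / (n + s))) ≤ 1 := by
    have h1 : -N < 1 / (1 / P + K * (n / (n + s))) := by
      have := min_le_right (1:ℝ) (1 / (1 / P + K * (n / (n + s))))
      linarith
    have h2 : 0 < 1 / P + K * (n / (n + s)) := by positivity
    rw [lt_div_iff₀ h2] at h1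
    exact h1.le
  refine ⟨fun x => (1 + N / P + N * K * (n / (n + s))) + (-N * K) * (x / (x + s)),
    cbf_simple (by
      have : 1 + N / P + N * K * (n / (n + s)) = 1 - -N * (1 / P + K * (n / (n + s))) := by ring
      rw [this]; linarith) (by nlinarith) hs0, ?_, ?_, ?_⟩
  · simp only
    rw [add_zero]
    field_simp
    ring
  · simp only
    rw [add_zero, show p ^ (n + 1) = p * P by rw [hPdef]; ring]
    have hns : (n:ℝ) + s ≠ 0 := by positivity
    have hns1 : (n:ℝ) + 1 + s ≠ 0 := by positivity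
    rw [hK]
    field_simp
    ring
  · simp only
    rw [add_zero, show p ^ (n + 2) = p ^ 2 * P by rw [hPdef]; ring]
    have hu : (n:ℝ) + s = 2 / (p - 1) := by rw [hs]; field_simp; ring
    have d1 : (n:ℝ) / (n + s) = 1 - s * (p - 1) / 2 := by
      have : (n:ℝ) / (n + s) = 1 - s / (n + s) := by
        have : (n:ℝ) + s ≠ 0 := by positivity
        field_simp; ring
      rw [this, hu]; field_simp
    have d3 : ((n:ℝ) + 2) / (n + 2 + s) = 1 - s * (p - 1) / (2 * p) := by
      have : ((n:ℝ) + 2) / (n + 2 + s) = 1 - s / (n + 2 + s) := by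
        have : (n:ℝ) + 2 + s ≠ 0 := by positivity
        field_simp; ring
      rw [this, hps, hu]; field_simp
    have hK' : K = 2 * (p + 1) / ((p - 1) * s * p * P) := by
      rw [hK, hu, show (n:ℝ) + 1 + s = (p + 1) / (p - 1) by
        rw [show (n:ℝ) + 1 + s = (n + s) + 1 by ring, hu]; field_simp; ring]
      field_simp
    rw [d1, d3, hK']
    field_simp
    ring

/-- Every complete Bernstein function has a nonincreasing Lévy density.  Let `p > 1`,
`-1 < N < D ≤ 0`, and let `F` be any Bernstein function whose Lévy measure has a nonincreasing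
density (for instance a complete Bernstein function).  Then

* `x F(x)` is convex on `(0,∞)`;
* `F` agrees with `(p^x+N)/(p^x+D)` at no more than two points `x ≥ 2/log p`;
* if `n ≥ 1` and `D(n(p-1)+2p) < p^{n+1}(n(p-1)-2)` (for instance `n > 2/(p-1)`), then `F` does not
  take even the three values `a_n, a_{n+1}, a_{n+2}` at `n, n+1, n+2`.

In particular no complete Bernstein function interpolates `(a_n)`.  For `D = 0` the bound
`2/(p-1)` is sharp: if `n(p-1) < 2`, then for all small `N < 0` some complete Bernstein function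
takes the three values `a_n, a_{n+1}, a_{n+2}`. -/
theorem result :
    (∀ F : ℝ → ℝ, IsCBF F → IsMonoBF F) ∧
    (∀ p N D : ℝ, 1 < p → -1 < N → N < D → D ≤ 0 → ∀ F : ℝ → ℝ, IsMonoBF F →
      ConvexOn ℝ (Ioi 0) (fun x => x * F x) ∧
      {x : ℝ | 2 / Real.log p ≤ x ∧ F x = (p ^ x + N) / (p ^ x + D)}.encard ≤ 2 ∧
      ∀ n : ℕ, 1 ≤ n → D * (n * (p - 1) + 2 * p) < p ^ (n + 1) * (n * (p - 1) - 2) →
        ¬ (F n = (p ^ n + N) / (p ^ n + D) ∧
          F (n + 1) = (p ^ (n + 1) + N) / (p ^ (n + 1) + D) ∧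
          F (n + 2) = (p ^ (n + 2) + N) / (p ^ (n + 2) + D))) ∧
    (∀ p N D : ℝ, 1 < p → -1 < N → N < D → D ≤ 0 →
      ∀ n : ℕ, 2 / (p - 1) < n → D * (n * (p - 1) + 2 * p) < p ^ (n + 1) * (n * (p - 1) - 2)) ∧
    (∀ p : ℝ, 1 < p → ∀ n : ℕ, n < 2 / (p - 1) →
      ∃ ε : ℝ, 0 < ε ∧ ∀ N : ℝ, -ε < N → N < 0 → ∃ F : ℝ → ℝ, IsCBF F ∧
        F n = (p ^ n + N) / (p ^ n + 0) ∧
        F (n + 1) = (p ^ (n + 1) + N) / (p ^ (n + 1) + 0) ∧
        F (n + 2) = (p ^ (n + 2) + N) / (p ^ (n + 2) + 0)) := by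
  refine ⟨fun F hF => cbf_mono hF, ?_, ?_, ?_⟩
  · intro p N D hp hN hND hD F hF
    refine ⟨convex_mul hF, ?_, ?_⟩
    · by_contra hc
      push Not at hc
      have h3 : (3:ℕ∞) ≤ {x : ℝ | 2 / Real.log p ≤ x ∧
          F x = (p ^ x + N) / (p ^ x + D)}.encard := by
        have := Order.add_one_le_of_lt hc
        have e : (2:ℕ∞) + 1 = 3 := by norm_num
        rwa [e] at this
      obtain ⟨t, hts, ht⟩ := Set.exists_subset_encard_eq h3
      obtain ⟨x, y, z, hxy, hxz, hyz, rfl⟩ := Set.encard_eq_three.1 ht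
      have hx := hts (show x ∈ ({x, y, z} : Set ℝ) by simp)
      have hy := hts (show y ∈ ({x, y, z} : Set ℝ) by simp)
      have hz := hts (show z ∈ ({x, y, z} : Set ℝ) by simp)
      rcases lt_or_gt_of_ne hxy with h1 | h1 <;> rcases lt_or_gt_of_ne hxz with h2 | h2 <;>
        rcases lt_or_gt_of_ne hyz with h3 | h3
      · exact part1 hp hN hND hD hF hx.1 h1 h3 hx.2 hy.2 hz.2
      · exact part1 hp hN hND hD hF hx.1 h2 h3 hx.2 hz.2 hy.2
      · linarith
      · exact part1 hp hN hND hD hF hz.1 h2 h1 hz.2 hx.2 hy.2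
      · exact part1 hp hN hND hD hF hy.1 h1 h2 hy.2 hx.2 hz.2
      · linarith
      · exact part1 hp hN hND hD hF hy.1 h3 h2 hy.2 hz.2 hx.2
      · exact part1 hp hN hND hD hF hz.1 h3 h1 hz.2 hy.2 hx.2
    · rintro n hn hcr ⟨h1, h2, h3⟩
      exact part2 hp hN hND (by linarith) hF hn hcr h1 h2 h3
  · intro p N D hp _ _ hD n hn
    have hp1 : 0 < p - 1 := by linarith
    rw [div_lt_iff₀ hp1] at hn
    have h1 : 0 < p ^ (n + 1) * (n * (p - 1) - 2) := by
      have : 0 < (n:ℝ) * (p - 1) - 2 := by linarith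
      positivity
    have h2 : 0 ≤ (n:ℝ) * (p - 1) + 2 * p := by positivity
    have h3 : D * (n * (p - 1) + 2 * p) ≤ 0 := mul_nonpos_of_nonpos_of_nonneg hD h2
    linarith
  · intro p hp n hn
    have hp1 : 0 < p - 1 := by linarith
    rw [lt_div_iff₀ hp1] at hn
    exact part3 hp hn

end Pool.Agent.Results.MP_e444d1_an.AtMostTwo
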